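import Pool.Agent.H854R3.CR.Stmts
import Pool.Agent.H854R3.NE.Cons

/-!
# Task Nil
-/

set_option autoImplicit false

namespace Pool.Agent.H214R3.CR

open Pool.Agent.H854R3.NE Pool.Agent.H854R3.CR

variable {Q : Type} [Ring Q]

theorem lev (hP : PrimeU Q) (m : ℕ) : ∀ b : Q, (∀ r : Q, (b * r) ^ (m + 1) * b = 0) → b = 0 := by
  induction m with
  | zero =>
    intro b hb
    rcases hP b b (fun r => by
      have := hb r
      rwa [zero_add, pow_one] at this) with h | h <;> exact h
  | succ m ih =>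
    intro b hb
    by_contra hne
    have h1 : ∃ r₀ : Q, (b * r₀) ^ (m + 1) * b ≠ 0 := by
      by_contra hcon
      push Not at hcon
      exact hne (ih b hcon)
    obtain ⟨r₀, hr₀⟩ := h1
    have h2 := lev_step (Set.univ : Set Q) (fun _ _ _ => ⟨Set.mem_univ _, Set.mem_univ _⟩)
      (fun _ _ _ _ => Set.mem_univ _) m b r₀ (Set.mem_univ _) (fun r _ => hb r)
    exact hr₀ (ih _ fun r => h2 r (Set.mem_univ _))

theorem prod_zero : ∀ (m : ℕ) (f : Fin m → Q) (k : ℕ) (h : k + 1 < m),
    f ⟨k, by omega⟩ * f ⟨k + 1, h⟩ = 0 → (List.ofFn f).prod = 0 := by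
  intro m
  induction m with
  | zero => intro f k h; omega
  | succ m ih =>
    intro f k h hf
    rw [List.ofFn_succ, List.prod_cons]
    cases k with
    | zero =>
      obtain ⟨m, rfl⟩ : ∃ m', m = m' + 1 := ⟨m - 1, by omega⟩
      rw [List.ofFn_succ, List.prod_cons, ← mul_assoc]
      have : f 0 * f (Fin.succ 0) = 0 := hf
      rw [this, zero_mul]
    | succ k =>
      have := ih (fun i => f i.succ) k (by omega) hf
      rw [this, mul_zero]

/-- the substitution -/
def X (a : Q) (t n : ℕ) (r : Fin (n + 1) → Q) (k : Fin (n + 1)) : Q :=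
  a ^ (n - (k : ℕ)) * r k * a ^ (t - (n - (k : ℕ)))

theorem exists_r (hP : PrimeU Q) (a : Q) (t : ℕ) (ht : a ^ t ≠ 0) : ∀ n : ℕ, n ≤ t → ∀ u : Q,
    u * a ^ n ≠ 0 → ∃ r : Fin (n + 1) → Q, u * (List.ofFn (X a t n r)).prod ≠ 0 := by
  intro n
  induction n with
  | zero =>
    intro _ u hu
    rw [pow_zero, mul_one] at hu
    by_contra hcon
    push Not at hcon
    rcases hP u (a ^ t) (fun r => by
      have := hcon (fun _ => r)
      simpa [X, mul_assoc] using this) with h | h
    · exact hu h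
    · exact ht h
  | succ n ih =>
    intro hn u hu
    have ht1 : a ^ (t - 1) ≠ 0 := by
      intro h
      apply ht
      have : t = t - 1 + 1 := by omega
      rw [this, pow_succ, h, zero_mul]
    obtain ⟨r0, hr0⟩ : ∃ r0, u * a ^ (n + 1) * r0 * a ^ (t - 1) ≠ 0 := by
      by_contra hcon
      push Not at hcon
      rcases hP _ _ hcon with h | h
      · exact hu h
      · exact ht1 h
    obtain ⟨r', hr'⟩ := ih (by omega) (u * (a ^ (n + 1) * r0 * a ^ (t - (n + 1)))) (by
      have e : u * (a ^ (n + 1) * r0 * a ^ (t - (n + 1))) * a ^ n =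
          u * a ^ (n + 1) * r0 * a ^ (t - 1) := by
        rw [show t - 1 = (t - (n + 1)) + n by omega, pow_add a (t - (n + 1)) n]
        simp only [mul_assoc]
      rw [e]; exact hr0)
    refine ⟨Fin.cons r0 r', ?_⟩
    rw [List.ofFn_succ, List.prod_cons, ← mul_assoc]
    have e0 : X a t (n + 1) (Fin.cons r0 r') 0 = a ^ (n + 1) * r0 * a ^ (t - (n + 1)) := by
      simp [X]
    have e1 : (fun i : Fin (n + 1) => X a t (n + 1) (Fin.cons r0 r') i.succ) = X a t n r' := by
      funext i
      simp only [X, Fin.val_succ, Fin.cons_succ, Nat.add_sub_add_right]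
    rw [e0, e1]
    exact hr'

theorem X_zero (a : Q) (t n : ℕ) (r : Fin (n + 1) → Q) (hn : n ≤ t) (ha : a ^ (t + 1) = 0)
    (i j : Fin (n + 1)) (hij : j < i) : X a t n r i * X a t n r j = 0 := by
  have h1 : (i : ℕ) ≤ n := by omega
  have h2 : (j : ℕ) < i := hij
  have e : X a t n r i * X a t n r j = a ^ (n - (i : ℕ)) * r i *
      (a ^ (t - (n - (i : ℕ))) * a ^ (n - (j : ℕ))) * r j * a ^ (t - (n - (j : ℕ))) := by
    simp only [X, mul_assoc]
  rw [e, ← pow_add]
  obtain ⟨d, hd⟩ : ∃ d, t - (n - (i : ℕ)) + (n - (j : ℕ)) = t + 1 + d :=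
    ⟨(i : ℕ) - j - 1, by omega⟩
  rw [hd, pow_add, ha]
  simp

theorem perm_id {n : ℕ} (ρ : Equiv.Perm (Fin (n + 1)))
    (h : ∀ i : Fin n, ρ i.castSucc < ρ i.succ) : ρ = 1 := by
  have h1 : StrictMono ρ := Fin.strictMono_iff_lt_succ.2 h
  have h2 : (ρ : Fin (n + 1) → Fin (n + 1)) = id := by
    refine (StrictMono.range_inj h1 strictMono_id).1 ?_
    rw [Set.range_id, ρ.surjective.range_eq]
  exact Equiv.ext fun x => congrFun h2 x

theorem pow_bound (hP : PrimeU Q) (N : TwoSidedIdeal Q) (hnil : ∀ x ∈ N, ∃ k, x ^ k = 0)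
    (n : ℕ) (nn : Equiv.Perm (Fin (n + 1)) → ℤ) (π0 : Equiv.Perm (Fin (n + 1)))
    (h1 : nn π0 = 1) (hM : MId (N : Set Q) (n + 1) nn) (a : Q) (ha : a ∈ N) :
    a ^ (n + 1) = 0 := by
  classical
  by_contra hne
  have hex := hnil a ha
  set K := Nat.find hex with hK
  have hK0 : a ^ K = 0 := Nat.find_spec hex
  have hKn : n + 1 < K := by
    by_contra hcon
    push Not at hcon
    apply hne
    obtain ⟨d, hd⟩ := Nat.exists_eq_add_of_le hcon
    rw [hd, pow_add, hK0, zero_mul]
  set t := K - 1 with ht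
  have ht1 : t + 1 = K := by omega
  have hat : a ^ t ≠ 0 := Nat.find_min hex (by omega)
  have hat1 : a ^ (t + 1) = 0 := by rw [ht1]; exact hK0
  have hnt : n ≤ t := by omega
  have han : (1 : Q) * a ^ n ≠ 0 := by
    rw [one_mul]
    intro h
    apply hat
    obtain ⟨d, hd⟩ := Nat.exists_eq_add_of_le hnt
    rw [hd, pow_add, h, zero_mul]
  obtain ⟨r, hr⟩ := exists_r hP a t hat n hnt 1 han
  rw [one_mul] at hr
  have hpow : ∀ j, 1 ≤ j → a ^ j ∈ N := by
    intro j hj
    obtain ⟨d, rfl⟩ : ∃ d, j = d + 1 := ⟨j - 1, by omega⟩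
    rw [pow_succ']
    exact N.mul_mem_right _ _ ha
  have hXN : ∀ k, X a t n r k ∈ N := by
    intro k
    unfold X
    by_cases h : n - (k : ℕ) = 0
    · rw [h]
      exact N.mul_mem_left _ _ (hpow _ (by omega))
    · rw [mul_assoc]
      exact N.mul_mem_right _ _ (hpow _ (by omega))
  have h2 := hM (fun v => X a t n r (π0⁻¹ v)) (fun i => hXN _)
  rw [Finset.sum_eq_single π0] at h2
  · apply hr
    rw [h1, one_smul] at h2
    have e : (fun k => X a t n r (π0⁻¹ (π0 k))) = X a t n r := by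
      funext k
      show X a t n r (π0.symm (π0 k)) = _
      rw [Equiv.symm_apply_apply]
    rw [e] at h2
    exact h2
  · intro π _ hπ
    have h3 : ¬ ∀ i : Fin n, (π0⁻¹ * π) i.castSucc < (π0⁻¹ * π) i.succ := by
      intro h
      have := perm_id _ h
      apply hπ
      rw [inv_mul_eq_one] at this
      exact this.symm
    push Not at h3
    obtain ⟨i, hi⟩ := h3
    have hi' : (π0⁻¹ * π) i.succ < (π0⁻¹ * π) i.castSucc := by
      refine lt_of_le_of_ne hi fun h => ?_
      have := (π0⁻¹ * π).injective h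
      have h4 := congrArg Fin.val this
      simp at h4
    have h5 : (List.ofFn fun k => X a t n r (π0⁻¹ (π k))).prod = 0 := by
      refine prod_zero (n + 1) _ i (by omega) ?_
      exact X_zero a t n r hnt hat1 _ _ hi'
    rw [h5, smul_zero]
  · intro h
    exact absurd (Finset.mem_univ _) h

theorem taskNil : TaskNil := by
  intro Q _ hP N hnil ⟨m, nn, π0, h1, hM⟩
  have hz : ∀ b ∈ N, b = 0 := by
    intro b hb
    cases m with
    | zero =>
      have h2 := hM (fun i => i.elim0) (fun i => i.elim0)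
      have h3 : (Finset.univ : Finset (Equiv.Perm (Fin 0))) = {π0} := by
        ext x
        simp only [Finset.mem_univ, Finset.mem_singleton, true_iff]
        exact Subsingleton.elim x π0
      rw [h3, Finset.sum_singleton, h1] at h2
      have h4 : (1 : Q) = 0 := by simpa using h2
      calc b = b * 1 := (mul_one b).symm
        _ = 0 := by rw [h4, mul_zero]
    | succ n =>
      refine lev hP n b fun r => ?_
      rw [pow_bound hP N hnil n nn π0 h1 hM (b * r) (N.mul_mem_right _ _ hb), zero_mul]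
  rw [eq_bot_iff]
  intro x hx
  rw [TwoSidedIdeal.mem_bot]
  exact hz x hx

end Pool.Agent.H214R3.CR
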